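import Pool.Agent.Helper65.Gen3.Goals

/-!
# The moment of order `2 k`
-/

namespace Pool.Agent.Helper65.Gen3

open Pool.Agent.Helper65.LinSpace Pool.Agent.Helper78.Avg Finset

theorem sum_eq_dis' (p K : ℕ) (f : ℕ → ℕ) (n s : ℕ) :
    ∑ z ∈ range (2 ^ n), (-1 : ℤ) ^ f z * (-1) ^ hs p K s z = 2 ^ n - 2 * (dis p K f n s : ℤ) := by
  have h : ∀ z, (-1 : ℤ) ^ f z * (-1) ^ hs p K s z =
      1 - 2 * (((f z + hs p K s z) % 2 : ℕ) : ℤ) := by
    intro z
    rw [← pow_add, neg_one_pow_eq]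
  rw [sum_congr rfl fun z _ => h z, sum_sub_distrib, ← mul_sum]
  unfold dis
  push_cast
  simp

/-- The values which are taken an odd number of times. -/
def odds {m : ℕ} (τ : Fin m → ℕ) : Finset ℕ :=
  (univ.image τ).filter fun z => (univ.filter fun i => τ i = z).card % 2 = 1

theorem prod_odds {m : ℕ} (τ : Fin m → ℕ) (h : ℕ → ℕ) :
    ∏ i, (-1 : ℤ) ^ h (τ i) = ∏ z ∈ odds τ, (-1 : ℤ) ^ h z := by
  rw [prod_comp (fun z => (-1 : ℤ) ^ h z) τ, odds, prod_filter]
  refine prod_congr rfl fun z _ => ?_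
  rcases Nat.mod_two_eq_zero_or_one (univ.filter fun i => τ i = z).card with h1 | h1
  · rw [if_neg (by omega), ← pow_mul, mul_comm, pow_mul, Even.neg_one_pow (Nat.even_iff.2 h1),
      one_pow]
  · rw [if_pos h1, ← pow_mul, mul_comm, pow_mul, Odd.neg_one_pow (Nat.odd_iff.2 h1)]

theorem two_card_le {m : ℕ} (τ : Fin m → ℕ) :
    2 * (univ.image τ).card ≤ m + (odds τ).card := by
  have h1 : ∑ z ∈ univ.image τ, (univ.filter fun i => τ i = z).card = m := by
    rw [← card_eq_sum_card_image τ univ, card_univ, Fintype.card_fin]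
  have h2 : ∀ z ∈ univ.image τ, 2 ≤ (univ.filter fun i => τ i = z).card +
      if (univ.filter fun i => τ i = z).card % 2 = 1 then 1 else 0 := by
    intro z hz
    obtain ⟨i, _, hi⟩ := mem_image.1 hz
    have h3 : 0 < (univ.filter fun i => τ i = z).card :=
      card_pos.2 ⟨i, mem_filter.2 ⟨mem_univ _, hi⟩⟩
    split_ifs <;> omega
  have h3 := sum_le_sum h2
  rw [sum_const, smul_eq_mul, sum_add_distrib, h1, ← card_filter] at h3
  unfold odds
  omega

theorem card_values {m N d : ℕ} :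
    ((Fintype.piFinset fun _ : Fin m => range N).filter fun τ => (univ.image τ).card = d).card ≤
      N ^ d * d ^ m := by
  classical
  let G : Finset ((Fin d → ℕ) × (Fin m → Fin d)) :=
    (Fintype.piFinset fun _ : Fin d => range N) ×ˢ univ
  have hG : G.card = N ^ d * d ^ m := by
    rw [card_product, Fintype.card_piFinset]
    simp
  rw [← hG]
  refine le_trans (card_le_card ?_) (card_image_le (s := G) (f := fun g => g.1 ∘ g.2))
  intro τ hτ
  obtain ⟨h1, h2⟩ := mem_filter.1 hτ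
  rw [Fintype.mem_piFinset] at h1
  let e := (univ.image τ).equivFinOfCardEq h2
  have hmem : ∀ i, τ i ∈ univ.image τ := fun i => mem_image_of_mem _ (mem_univ _)
  refine mem_image.2 ⟨(fun j => ((e.symm j : {x // x ∈ univ.image τ}) : ℕ),
    fun i => e ⟨τ i, hmem i⟩), ?_, ?_⟩
  · refine mem_product.2 ⟨Fintype.mem_piFinset.2 fun j => ?_, mem_univ _⟩
    obtain ⟨i, _, hi⟩ := mem_image.1 (e.symm j).2
    show ((e.symm j : {x // x ∈ univ.image τ}) : ℕ) ∈ range N
    rw [← hi]
    exact h1 i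
  · funext i
    show ((e.symm (e ⟨τ i, hmem i⟩) : {x // x ∈ univ.image τ}) : ℕ) = τ i
    rw [Equiv.symm_apply_apply]

theorem mom_aux {k N p d t : ℕ} (hN : 1 ≤ N) (hp : N ≤ p) (h1 : 2 * d ≤ 2 * k + t)
    (h2 : t ≤ 2 * k) : N ^ d * p ^ (2 * k - t) ≤ N ^ k * p ^ (2 * k) := by
  rcases Nat.le_total d k with h | h
  · exact Nat.mul_le_mul (Nat.pow_le_pow_right hN h) (Nat.pow_le_pow_right (by omega) (by omega))
  · obtain ⟨j, rfl⟩ := Nat.exists_eq_add_of_le h
    rw [pow_add, mul_assoc]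
    refine Nat.mul_le_mul_left _ ?_
    calc N ^ j * p ^ (2 * k - t) ≤ p ^ j * p ^ (2 * k - t) :=
          Nat.mul_le_mul_right _ (Nat.pow_le_pow_left hp _)
      _ = p ^ (j + (2 * k - t)) := (pow_add _ _ _).symm
      _ ≤ p ^ (2 * k) := Nat.pow_le_pow_right (by omega) (by omega)

theorem sum_pow_le {k N p : ℕ} (hk : 0 < k) (hN : 1 ≤ N) (hp : N ≤ p) :
    ∑ τ ∈ Fintype.piFinset fun _ : Fin (2 * k) => range N, p ^ (2 * k - (odds τ).card) ≤
      (2 * k) ^ (2 * k + 1) * p ^ (2 * k) * N ^ k := by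
  classical
  have hmaps : ∀ τ ∈ Fintype.piFinset fun _ : Fin (2 * k) => range N,
      (univ.image τ).card ∈ Icc 1 (2 * k) := by
    intro τ _
    refine mem_Icc.2 ⟨card_pos.2 ⟨τ ⟨0, by omega⟩, mem_image_of_mem _ (mem_univ _)⟩, ?_⟩
    refine card_image_le.trans ?_
    simp
  rw [← sum_fiberwise_of_maps_to hmaps]
  have hd : ∀ d ∈ Icc 1 (2 * k),
      ∑ τ ∈ (Fintype.piFinset fun _ : Fin (2 * k) => range N).filter
        (fun τ => (univ.image τ).card = d), p ^ (2 * k - (odds τ).card) ≤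
      (2 * k) ^ (2 * k) * p ^ (2 * k) * N ^ k := by
    intro d hd
    obtain ⟨_, hd2⟩ := mem_Icc.1 hd
    have h1 : N ^ d * ∑ τ ∈ (Fintype.piFinset fun _ : Fin (2 * k) => range N).filter
        (fun τ => (univ.image τ).card = d), p ^ (2 * k - (odds τ).card) ≤
        N ^ d * ((2 * k) ^ (2 * k) * p ^ (2 * k) * N ^ k) := by
      rw [mul_sum]
      calc _ ≤ ∑ τ ∈ (Fintype.piFinset fun _ : Fin (2 * k) => range N).filter
            (fun τ => (univ.image τ).card = d), N ^ k * p ^ (2 * k) := by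
            refine sum_le_sum fun τ hτ => ?_
            have h2 := (mem_filter.1 hτ).2
            have h3 := two_card_le τ
            have h4 : (odds τ).card ≤ 2 * k := by
              refine (card_filter_le _ _).trans (card_image_le.trans ?_)
              simp
            rw [h2] at h3
            exact mom_aux hN hp h3 h4
        _ = _ * (N ^ k * p ^ (2 * k)) := by rw [sum_const, smul_eq_mul]
        _ ≤ (N ^ d * d ^ (2 * k)) * (N ^ k * p ^ (2 * k)) :=
            Nat.mul_le_mul_right _ card_values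
        _ ≤ (N ^ d * (2 * k) ^ (2 * k)) * (N ^ k * p ^ (2 * k)) := by
            gcongr
        _ = _ := by ring
    exact Nat.le_of_mul_le_mul_left h1 (by positivity)
  refine (sum_le_sum hd).trans (le_of_eq ?_)
  rw [sum_const, Nat.card_Icc, smul_eq_mul]
  have : 2 * k + 1 - 1 = 2 * k := by omega
  rw [this]
  ring

theorem mom (hI : IND_stmt) : MOM_stmt := by
  intro k n p hk hp h2 hN f
  classical
  have hN1 : 1 ≤ 2 ^ n := Nat.one_le_two_pow
  have h1 : ∀ s, ((2 : ℤ) ^ n - 2 * (dis p (2 * k) f n s : ℤ)) ^ (2 * k) =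
      ∑ τ ∈ Fintype.piFinset fun _ : Fin (2 * k) => range (2 ^ n),
        (∏ i, (-1 : ℤ) ^ f (τ i)) * ∏ z ∈ odds τ, (-1 : ℤ) ^ hs p (2 * k) s z := by
    intro s
    rw [← sum_eq_dis', sum_pow']
    refine sum_congr rfl fun τ _ => ?_
    rw [prod_mul_distrib, prod_odds τ fun z => hs p (2 * k) s z]
  rw [sum_congr rfl fun s _ => h1 s, sum_comm]
  have h3 : ∀ τ ∈ Fintype.piFinset fun _ : Fin (2 * k) => range (2 ^ n),
      ∑ s ∈ range (p ^ (2 * k)), (∏ i, (-1 : ℤ) ^ f (τ i)) *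
        ∏ z ∈ odds τ, (-1 : ℤ) ^ hs p (2 * k) s z ≤ ((p ^ (2 * k - (odds τ).card) : ℕ) : ℤ) := by
    intro τ hτ
    rw [Fintype.mem_piFinset] at hτ
    have h4 : odds τ ⊆ range p := by
      intro z hz
      obtain ⟨i, _, hi⟩ := mem_image.1 (mem_filter.1 hz).1
      have := mem_range.1 (hτ i)
      rw [mem_range]
      omega
    have h5 : (odds τ).card ≤ 2 * k := by
      refine (card_filter_le _ _).trans (card_image_le.trans ?_)
      simp
    rw [← mul_sum, hI p (2 * k) hp h2 (odds τ) h4 h5]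
    have h6 : (∏ i, (-1 : ℤ) ^ f (τ i)) ≤ 1 := by
      refine (le_abs_self _).trans ?_
      rw [abs_prod]
      refine (prod_congr rfl fun i _ => ?_).trans_le (prod_const_one).le
      rw [abs_pow, abs_neg, abs_one, one_pow]
    push_cast
    calc _ ≤ 1 * (p : ℤ) ^ (2 * k - (odds τ).card) :=
          mul_le_mul_of_nonneg_right h6 (by positivity)
      _ = _ := one_mul _
  refine (sum_le_sum h3).trans ?_
  have h7 := sum_pow_le (k := k) hk hN1 hN.le
  have h8 : (((∑ τ ∈ Fintype.piFinset fun _ : Fin (2 * k) => range (2 ^ n),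
      p ^ (2 * k - (odds τ).card) : ℕ)) : ℤ) ≤
      (((2 * k) ^ (2 * k + 1) * p ^ (2 * k) * (2 ^ n) ^ k : ℕ) : ℤ) := by exact_mod_cast h7
  rw [Nat.cast_sum] at h8
  refine h8.trans (le_of_eq ?_)
  push_cast
  rw [← pow_mul, mul_comm n k]

end Pool.Agent.Helper65.Gen3
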