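import Pool.Agent.Helper65.Gen3.Defs

/-!
# Hardness against any linear amount of advice: the statements of the parts

Every statement comes with its proof in words.
-/

namespace Pool.Agent.Helper65.Gen3

open Pool.Agent.Helper65.LinSpace Pool.Agent.Helper78.Avg Pool.Agent.Helper78.Gen2 Finset

/-- IND. The values of a random polynomial of degree less than `K` at `j ≤ K` distinct places are
independent. In `ZMod p`: `hs p K s z = ∑ i < K, d_i * z ^ (K - 1 - i)` with the digits `d_i` of `s`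
(induction on `K`), and `s ↦ (d_i)` is a bijection from `range (p ^ K)` to `Fin K → ZMod p`. The
linear map from the coefficients to the values at the elements of `T` is surjective (Lagrange
interpolation, `T` has at most `K` elements which are distinct modulo `p`), so all fibres have
`p ^ (K - |T|)` elements, and the sum is `p ^ (K - |T|) * (∑ v ∈ range p, (-1) ^ v) ^ |T|`; for odd `p` the
inner sum is `1`. (`(-1) ^ hs` only depends on the representative `hs < p`; for `K = 0` the set `T` is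
empty.) -/
def IND_stmt : Prop := ∀ (p K : ℕ), p.Prime → 2 < p → ∀ T : Finset ℕ, T ⊆ range p → T.card ≤ K →
    ∑ s ∈ range (p ^ K), ∏ z ∈ T, (-1 : ℤ) ^ hs p K s z = (p : ℤ) ^ (K - T.card)

/-- MOM (may assume IND). The moment of order `2 k`. `2 ^ n - 2 dis = ∑ z, (-1) ^ (f z) * (-1) ^ hs … z`
(see `sum_eq_dis` in `Helper78/Avg/Parseval.lean`). Expand the power: it is the sum over all
`τ : Fin (2 k) → range N`, `N = 2 ^ n`, of `± ∏ i, (-1) ^ hs … (τ i)` (`Finset.sum_pow'`, or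
`Finset.prod_univ_sum`). For fixed `τ` let `T` be the set of the values which are taken an odd number
of times, and `d` the number of values of `τ`. The product is `∏ z ∈ T, (-1) ^ hs … z`, so the sum over
`s` has absolute value `p ^ (2 k - |T|)` by IND. The other `d - |T|` values are taken at least twice,
so `|T| + 2 (d - |T|) ≤ 2 k`, that is `2 d ≤ 2 k + |T|`. There are at most `N ^ d * d ^ (2 k)` functions
`τ` with exactly `d` values (`τ = g ∘ σ` with `σ : Fin (2 k) → Fin d` and `g : Fin d → range N`), and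
`1 ≤ d ≤ 2 k` (`k ≥ 1`). For `d ≤ k` use `p ^ (2 k - |T|) ≤ p ^ (2 k)` and `N ^ d ≤ N ^ k`; for `d > k` use
`|T| ≥ 2 d - 2 k` and `p > N`: `N ^ d * p ^ (2 k - |T|) ≤ N ^ d * p ^ (4 k - 2 d) ≤ N ^ k * p ^ (2 k)` since
`N ^ (d - k) ≤ p ^ (2 d - 2 k)`. So the sum is at most
`∑ d ∈ [1, 2 k], d ^ (2 k) * N ^ k * p ^ (2 k) ≤ (2 k) ^ (2 k + 1) * p ^ (2 k) * N ^ k`. -/
def MOM_stmt : Prop := ∀ (k n p : ℕ), 0 < k → p.Prime → 2 < p → 2 ^ n < p → ∀ f : ℕ → ℕ,
    ∑ s ∈ range (p ^ (2 * k)), ((2 : ℤ) ^ n - 2 * (dis p (2 * k) f n s : ℤ)) ^ (2 * k) ≤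
      (2 * k) ^ (2 * k + 1) * p ^ (2 * k) * 2 ^ (k * n)

/-- GOOD (may assume MOM). As `exists_good` in `Helper78/Avg/Parseval.lean`: by Markov's inequality at
most `p ^ (2 k) / (16 * 4 ^ e * (m + 1) ^ 2 * 2 ^ m)` numbers `s` are bad for `e` and `a`, `m = log₂ a`; the
powers are even, so nonnegative. With `sum_adv`, `sum_inv_sq`, `sum_four` the sum over `e` and `a` is
smaller than `p ^ (2 k)`. -/
def GOOD_stmt : Prop := ∀ (k n p : ℕ), 0 < k → p.Prime → 2 < p → 2 ^ n < p →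
    ∀ f : ℕ → ℕ → ℕ → ℕ, ∃ s < p ^ (2 * k), ∀ e < n + 1, ∀ a < 2 ^ (k * n + 1),
      ((2 : ℤ) ^ n - 2 * (dis p (2 * k) (f e a) n s : ℤ)) ^ (2 * k) ≤ (wt k n e a : ℤ)

/-- LSH. The language is in linear space, for every fixed `k`. As in `Helper78/Avg/Diag.lean`: `LS.nrec`
for `hs` (values smaller than `p` or `0`), `LS.nextPrime`, `nextPrime_spec` (`p ≤ 2 (2 ^ n + 2)`),
`LS.sum_le`, `LS.pow_const` for the exponent `2 * k`, `LS.pow_of_le` for powers of two (exponents at most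
a constant times `log₂ x + 1`, `two_pow_log_le`). -/
def LSH_stmt : Prop := ∀ (U : ℕ → ℕ → ℕ → ℕ) (k : ℕ),
    LS (fun z : ℕ × ℕ × ℕ => U z.1 z.2.1 z.2.2) → DLINSPACE (hL U k)

/-- HARD (may assume GOOD, LSH). As `Helper78/Avg/Diag.lean` (`hid_spec`, `vio_eq_zero`, `hid_good`) and
`Helper78/Avg/Count.lean` (`agree_add`, `agree_compl`, `abs_dis_le`, `exists_hard`). For `e > n` or
`|a| > k n` the bound is trivial (`2 ^ n / 2 ≤ …`, since `(n + |a| / k) / 2 ≥ n`). Otherwise, with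
`m = |a|` and `D` the number of disagreements, `(2 ^ n - 2 D) ^ (2 k) ≤ wt k n e (num a)`, and this is at
most `(2 X) ^ (2 k)` for `X = (2 k) ^ 2 * 2 ^ (e + 2) * (m + 1) * 2 ^ ((n + m / k) / 2)`, since
`2 k + 1 ≤ 4 k`, `2 e + 4 ≤ 2 k (e + 3)`, `(m + 1) ^ 2 ≤ (m + 1) ^ (2 k)`, and
`(2 ^ ((n + m / k) / 2)) ^ (2 k) = 2 ^ (k n + m)`. So `|2 ^ n - 2 D| ≤ 2 X` (`pow_le_pow_left`,
`abs_le_of_sq_le`-like for even powers: `abs_pow`, `pow_le_pow_iff_left₀`). -/
def HARD_stmt : Prop := ∀ (U : ℕ → ℕ → ℕ → ℕ) (k : ℕ), 0 < k →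
    LS (fun z : ℕ × ℕ × ℕ => U z.1 z.2.1 z.2.2) →
    ∃ L : Set (List Bool), DLINSPACE L ∧ ∀ (e n : ℕ) (a : List Bool),
      |({w : List Bool | w.length = n ∧ (U e (num a) (num w) ≠ 0 ↔ w ∈ L)}.ncard : ℝ) -
        2 ^ n / 2| ≤ (2 * k) ^ 2 * 2 ^ (e + 2) * ((a.length : ℝ) + 1) *
          2 ^ (((n : ℝ) + a.length / k) / 2) ∧
      |({w : List Bool | w.length = n ∧ (U e (num a) (num w) ≠ 0 ↔ w ∈ Lᶜ)}.ncard : ℝ) -
        2 ^ n / 2| ≤ (2 * k) ^ 2 * 2 ^ (e + 2) * ((a.length : ℝ) + 1) *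
          2 ^ (((n : ℝ) + a.length / k) / 2)

/-- ALT (may assume HARD). As `alt_main` in `Helper78/Gen2/Main.lean`, with HARD for `exists_hard`. For
`n < n₀` the bound `2 ^ n` is trivial if `c' ≥ 2 ^ n₀`. -/
def ALT_stmt : Prop := ∀ (acc : ℕ → ℕ → ℕ → ℕ → ℕ) (N : ℕ → ℕ),
    LS (fun z : ℕ × ℕ × ℕ × ℕ => acc z.1 z.2.1 z.2.2.1 z.2.2.2) → LS N → ∀ c k : ℕ, 0 < k →
    ∃ L : Set (List Bool), DLINSPACE L ∧
      ∀ (Acc Good : List Bool → List Bool → Prop),
        (∃ e n₀ : ℕ, ∀ w y : List Bool, n₀ ≤ w.length →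
          (∀ S < N (num w), acc e (num w) (num y) S ≠ 0 → Acc w y) ∧
          (Good w y → ∃ S < N (num w), acc e (num w) (num y) S ≠ 0)) →
        ∃ c' : ℝ, ∀ (n : ℕ) (α : List Bool), ∀ M, M = L ∨ M = Lᶜ →
          ({w : List Bool | w.length = n ∧
            (Alt true (c * n) (fun v => Acc w (α ++ v)) → w ∈ M) ∧
            (w ∈ M → Alt true (c * n) fun v => Good w (α ++ v))}.ncard : ℝ) ≤
          2 ^ n / 2 + c' * ((α.length : ℝ) + 1) * 2 ^ (((n : ℝ) + α.length / k) / 2)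

end Pool.Agent.Helper65.Gen3
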