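import Pool.Agent.Helper78.Gen2.Main

/-!
# Hardness against any linear amount of advice: definitions

The slices of the language are the parities of the values of polynomials of degree less than `2 k`
modulo a prime number `p > 2 ^ n`.
-/

namespace Pool.Agent.Helper65.Gen3

open Pool.Agent.Helper65.LinSpace Pool.Agent.Helper78.Avg Finset

/-- The prime number for words of length `n`. -/
noncomputable def pP (n : ℕ) : ℕ := nextPrime (2 ^ n + 2)

/-- The value at `z` of the polynomial modulo `p` whose `K` coefficients (beginning with the leading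
one) are the digits of `s` in base `p`. -/
def hs (p K s z : ℕ) : ℕ := nrec 0 (fun i v => (v * z + dig p s i) % p) K

/-- The number of the `z < 2 ^ n` for which the bit `f z` is different from the parity of the value
of the polynomial with number `s`. -/
def dis (p K : ℕ) (f : ℕ → ℕ) (n s : ℕ) : ℕ := ∑ z ∈ range (2 ^ n), (f z + hs p K s z) % 2

/-- The bound for the code `e` and the advice with number `a`. -/
def wt (k n e a : ℕ) : ℕ :=
  (2 * k) ^ (2 * k + 1) * (Nat.log 2 a + 1) ^ 2 * 2 ^ (k * n + Nat.log 2 a + 2 * e + 4)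

variable (U : ℕ → ℕ → ℕ → ℕ) (k : ℕ)

/-- The number of disagreements of a device and a polynomial on the words of length `log x`. -/
noncomputable def disN (x e a s : ℕ) : ℕ :=
  ∑ z ∈ range (2 ^ Nat.log 2 x),
    (lt01 0 (U e a (2 ^ Nat.log 2 x + z)) + hs (pP (Nat.log 2 x)) (2 * k) s z) % 2

/-- The bound of the correlation. -/
def wtN (x e a : ℕ) : ℕ :=
  (2 * k) ^ (2 * k + 1) * (Nat.log 2 a + 1) ^ 2 *
    2 ^ (k * Nat.log 2 x + min (Nat.log 2 a) (k * Nat.log 2 x) + 2 * min e (Nat.log 2 x) + 4)

/-- Nonzero if the correlation is too large. -/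
noncomputable def vio (x e a s : ℕ) : ℕ := lt01 (wtN k x e a)
  (((2 ^ Nat.log 2 x - 2 * disN U k x e a s) + (2 * disN U k x e a s - 2 ^ Nat.log 2 x)) ^ (2 * k))

/-- The number of devices which have a too large correlation with the polynomial with number `s`. -/
noncomputable def badN (x s : ℕ) : ℕ :=
  ∑ e ∈ range (Nat.log 2 x + 1), ∑ a ∈ range (2 ^ (k * Nat.log 2 x + 1)), vio U k x e a s

/-- The first good polynomial. -/
noncomputable def hid (x : ℕ) : ℕ := ∑ i ∈ range (pP (Nat.log 2 x) ^ (2 * k)),
  ifz (∑ j ∈ range (i + 1), ifz (badN U k x j) 1 0) 1 0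

/-- The language. -/
def hL : Set (List Bool) :=
  {w | hs (pP w.length) (2 * k) (hid U k (num w)) (num w - 2 ^ w.length) % 2 = 1}

end Pool.Agent.Helper65.Gen3
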