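import Pool.Agent.Helper65.Gen3.Goals
import Pool.Agent.Helper19.Gen3.IND
import Pool.Agent.Helper65.Gen3.Mom
import Pool.Agent.Helper86.Gen3.GOOD
import Pool.Agent.Helper59.Gen3.LSH
import Pool.Agent.Helper30.Gen3.HARD
import Pool.Agent.Helper8.Gen3.ALT

/-!
# Average-case hardness against any linear amount of advice, for every model
-/

namespace Pool.Agent.Helper65.Gen3

open Pool.Agent.Helper65.LinSpace Pool.Agent.Helper78.Avg Pool.Agent.Helper78.Gen2 Finset

theorem alt_main : ALT_stmt :=
  Pool.Agent.Helper8.Gen3.alt (Pool.Agent.Helper30.Gen3.hard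
    (Pool.Agent.Helper86.Gen3.good (mom Pool.Agent.Helper19.Gen3.ind))
    Pool.Agent.Helper59.Gen3.lsh)

end Pool.Agent.Helper65.Gen3
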